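import Pool.Agent.N321.KT.Defs

/-! # Project KT (helper321), leaf MIN (helper823): generic rank -/

set_option autoImplicit false

namespace Pool.Agent.N823.KT

open Pool.Agent.N321.KT

section rank

/-- a factorisation of the identity through a linear map of rank `r` -/
lemma exists_factor {V W : Type} [AddCommGroup V] [Module ℝ V] [AddCommGroup W] [Module ℝ W]
    [FiniteDimensional ℝ V] (f : V →ₗ[ℝ] W) :
    ∃ r : ℕ, r = Module.finrank ℝ (LinearMap.range f) ∧
      ∃ (A : (Fin r → ℝ) →ₗ[ℝ] V) (B : W →ₗ[ℝ] (Fin r → ℝ)), ∀ x, B (f (A x)) = x := by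
  obtain ⟨g, hg⟩ := f.rangeRestrict.exists_rightInverse_of_surjective f.range_rangeRestrict
  obtain ⟨h, hh⟩ := (LinearMap.range f).subtype.exists_leftInverse_of_injective
    (LinearMap.range f).ker_subtype
  let e : LinearMap.range f ≃ₗ[ℝ] (Fin (Module.finrank ℝ (LinearMap.range f)) → ℝ) :=
    LinearEquiv.ofFinrankEq _ _ (by simp)
  refine ⟨_, rfl, g.comp e.symm.toLinearMap, e.toLinearMap.comp h, fun x => ?_⟩
  have h1 : f (g (e.symm x)) = (e.symm x : LinearMap.range f) := by
    have := congrArg (fun l : LinearMap.range f →ₗ[ℝ] LinearMap.range f => ((l (e.symm x) : LinearMap.range f) : W)) hg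
    exact this
  have h2 : h ((e.symm x : LinearMap.range f) : W) = e.symm x := by
    have := congrArg (fun l : LinearMap.range f →ₗ[ℝ] LinearMap.range f => l (e.symm x)) hh
    exact this
  change e (h (f (g (e.symm x)))) = x
  rw [h1, h2, LinearEquiv.apply_symm_apply]

/-- the rank of a polynomial family is generically maximal -/
theorem generic {V R σ : Type} [AddCommGroup V] [Module ℝ V] [FiniteDimensional ℝ V] [Fintype R]
    [DecidableEq R] (M : (σ → ℝ) → V →ₗ[ℝ] (R → ℝ)) (p : V → R → MvPolynomial σ ℝ)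
    (hp : ∀ K v r, MvPolynomial.eval K (p v r) = M K v r) (K0 : σ → ℝ) :
    ∃ P : MvPolynomial σ ℝ, MvPolynomial.eval K0 P ≠ 0 ∧ ∀ K, MvPolynomial.eval K P ≠ 0 →
      Module.finrank ℝ (LinearMap.ker (M K)) ≤ Module.finrank ℝ (LinearMap.ker (M K0)) := by
  obtain ⟨r, hr, A, B, hAB⟩ := exists_factor (M K0)
  let Q : Matrix (Fin r) (Fin r) (MvPolynomial σ ℝ) := fun a b =>
    ∑ ρ : R, MvPolynomial.C (B (Pi.single ρ 1) a) * p (A (Pi.single b 1)) ρ
  have hQ : ∀ K, (MvPolynomial.eval K).mapMatrix Q = LinearMap.toMatrix' (B ∘ₗ M K ∘ₗ A) := by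
    intro K
    ext a b
    rw [RingHom.mapMatrix_apply, Matrix.map_apply, LinearMap.toMatrix'_apply]
    simp only [Q, map_sum, map_mul, MvPolynomial.eval_C, hp, LinearMap.comp_apply]
    have h1 : M K (A (Pi.single b 1)) =
        ∑ ρ : R, (M K (A (Pi.single b 1)) ρ) • (Pi.single ρ (1 : ℝ) : R → ℝ) := by
      ext ρ
      simp [Finset.sum_apply, Pi.single_apply]
    calc _ = (∑ ρ : R, (M K (A (Pi.single b 1)) ρ) • B (Pi.single ρ 1)) a := by
          simp [Finset.sum_apply, mul_comm]
      _ = B (∑ ρ : R, (M K (A (Pi.single b 1)) ρ) • (Pi.single ρ (1 : ℝ) : R → ℝ)) a := by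
          rw [map_sum]
          simp only [map_smul]
      _ = _ := by rw [← h1]
  have hdet : ∀ K, MvPolynomial.eval K Q.det = (LinearMap.toMatrix' (B ∘ₗ M K ∘ₗ A)).det := by
    intro K
    rw [RingHom.map_det, hQ]
  refine ⟨Q.det, ?_, fun K hK => ?_⟩
  · rw [hdet]
    have h1 : B ∘ₗ M K0 ∘ₗ A = LinearMap.id := LinearMap.ext fun x => hAB x
    rw [h1, LinearMap.toMatrix'_id, Matrix.det_one]
    exact one_ne_zero
  · rw [hdet, LinearMap.det_toMatrix'] at hK
    have hinj : Function.Injective (B ∘ₗ M K ∘ₗ A) :=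
      (LinearEquiv.ofIsUnitDet (f := B ∘ₗ M K ∘ₗ A) (v := Pi.basisFun ℝ (Fin r))
        (v' := Pi.basisFun ℝ (Fin r)) (by
          rw [LinearMap.det_toMatrix]
          exact isUnit_iff_ne_zero.2 hK)).injective
    have hinj2 : Function.Injective (M K ∘ₗ A) := by
      intro x y hxy
      exact hinj (congrArg B hxy)
    have h1 : r ≤ Module.finrank ℝ (LinearMap.range (M K)) := by
      have h2 := LinearMap.finrank_range_of_inj hinj2
      rw [Module.finrank_fin_fun] at h2
      rw [← h2]
      exact Submodule.finrank_mono (LinearMap.range_comp_le_range A (M K))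
    have h3 := LinearMap.finrank_range_add_finrank_ker (M K)
    have h4 := LinearMap.finrank_range_add_finrank_ker (M K0)
    omega

end rank

variable {ι : Type}

lemma map_mul' {R S : Type} [CommRing R] [CommRing S] (φ : R →+* S) (w : List ι) :
    ∀ u v : Jet ι R, φ (mul u v w) = mul (fun w => φ (u w)) (fun w => φ (v w)) w := by
  induction w with
  | nil => intro u v; simp [mul]
  | cons i w ih =>
    intro u v
    simp only [mul, map_add, ih]
    rfl

/-- the symmetric jets of orders `1, ..., m` -/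
def VV (ι : Type) (m : ℕ) : Submodule ℝ (Jet ι ℝ) where
  carrier := {v | Sym v ∧ Tr m v}
  add_mem' := by
    rintro v v' ⟨h1, h2⟩ ⟨h1', h2'⟩
    refine ⟨fun w w' h => ?_, fun w hw => ?_⟩
    · change v w + v' w = v w' + v' w'
      rw [h1 w w' h, h1' w w' h]
    · by_cases h : v w = 0
      · by_cases h' : v' w = 0
        · exact absurd (show v w + v' w = 0 by rw [h, h', add_zero]) hw
        · exact h2' w h'
      · exact h2 w h
  zero_mem' := ⟨fun w w' _ => rfl, fun w hw => absurd rfl hw⟩
  smul_mem' := by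
    rintro c v ⟨h1, h2⟩
    refine ⟨fun w w' h => ?_, fun w hw => ?_⟩
    · change c * v w = c * v w'
      rw [h1 w w' h]
    · exact h2 w (fun h => hw (show c * v w = 0 by rw [h, mul_zero]))

lemma fin_words (ι : Type) [Finite ι] (m : ℕ) : Finite {w : List ι // w.length ≤ m} :=
  (List.finite_length_le ι m).to_subtype

lemma fin_VV (ι : Type) [Fintype ι] (m : ℕ) : FiniteDimensional ℝ (VV ι m) := by
  have := fin_words ι m
  let T : VV ι m →ₗ[ℝ] ({w : List ι // w.length ≤ m} → ℝ) :=
    { toFun := fun v w => (v : Jet ι ℝ) w.1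
      map_add' := fun v v' => rfl
      map_smul' := fun c v => rfl }
  refine FiniteDimensional.of_injective T ?_
  intro v v' h
  apply Subtype.ext
  funext w
  by_cases hw : w.length ≤ m
  · exact congrFun h ⟨w, hw⟩
  · have h1 : (v : Jet ι ℝ) w = 0 := by
      by_contra h2
      exact hw (v.2.2 w h2).2
    have h1' : (v' : Jet ι ℝ) w = 0 := by
      by_contra h2
      exact hw (v'.2.2 w h2).2
    rw [h1, h1']

/-- the equations as a linear map -/
def MM [Fintype ι] (m : ℕ) (K : ι × ι × List ι → ℝ) :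
    VV ι m →ₗ[ℝ] ({w : List ι // w.length ≤ m} × ι × ι → ℝ) where
  toFun v := fun r => if r.1.1.length + 2 ≤ m then
    om (fun s j w => K (s, j, w)) (v : Jet ι ℝ) r.2.1 r.2.2 r.1.1 else 0
  map_add' v v' := by
    funext r
    by_cases h : r.1.1.length + 2 ≤ m
    · simp only [h, if_true, Pi.add_apply, Submodule.coe_add]
      exact om_add _ _ _ _ _ _
    · simp only [h, if_false, Pi.add_apply, add_zero]
  map_smul' c v := by
    funext r
    by_cases h : r.1.1.length + 2 ≤ m
    · simp only [h, if_true, Pi.smul_apply, Submodule.coe_smul, RingHom.id_apply, smul_eq_mul]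
      exact om_smul _ _ _ _ _ _
    · simp only [h, if_false, Pi.smul_apply, RingHom.id_apply, smul_zero]

/-- the universal equations -/
noncomputable def pp [Fintype ι] (m : ℕ) (v : VV ι m) (r : {w : List ι // w.length ≤ m} × ι × ι) :
    MvPolynomial (ι × ι × List ι) ℝ :=
  if r.1.1.length + 2 ≤ m then
    om (fun s j w => MvPolynomial.X (s, j, w)) (fun w => MvPolynomial.C ((v : Jet ι ℝ) w))
      r.2.1 r.2.2 r.1.1 else 0

lemma eval_pp [Fintype ι] (m : ℕ) (K : ι × ι × List ι → ℝ) (v : VV ι m)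
    (r : {w : List ι // w.length ≤ m} × ι × ι) :
    MvPolynomial.eval K (pp m v r) = MM m K v r := by
  have hth : ∀ (j : ι) (w : List ι),
      MvPolynomial.eval K (th (fun s j w => (MvPolynomial.X (s, j, w) :
        MvPolynomial (ι × ι × List ι) ℝ)) (fun w => MvPolynomial.C ((v : Jet ι ℝ) w)) j w) =
        th (fun s j w => K (s, j, w)) (v : Jet ι ℝ) j w := by
    intro j w
    unfold th
    rw [map_sum]
    refine Finset.sum_congr rfl fun s _ => ?_
    rw [map_mul']
    congr 1
    · funext w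
      simp
    · funext w
      simp [D]
  change _ = if r.1.1.length + 2 ≤ m then
    om (fun s j w => K (s, j, w)) (v : Jet ι ℝ) r.2.1 r.2.2 r.1.1 else 0
  unfold pp
  by_cases h : r.1.1.length + 2 ≤ m
  · rw [if_pos h, if_pos h]
    unfold om
    rw [map_sub, hth, hth]
  · rw [if_neg h, if_neg h, map_zero]

lemma rows_iff [Fintype ι] (m : ℕ) (K : ι × ι × List ι → ℝ) (v : VV ι m) :
    v ∈ LinearMap.ker (MM m K) ↔ Rows m (fun s j w => K (s, j, w)) (v : Jet ι ℝ) := by
  rw [LinearMap.mem_ker]
  constructor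
  · intro h w hw i j
    have h1 := congrFun h (⟨w, by omega⟩, i, j)
    change (if w.length + 2 ≤ m then om (fun s j w => K (s, j, w)) (v : Jet ι ℝ) i j w else 0) = 0
      at h1
    rwa [if_pos hw] at h1
  · intro h
    funext r
    change (if r.1.1.length + 2 ≤ m then
      om (fun s j w => K (s, j, w)) (v : Jet ι ℝ) r.2.1 r.2.2 r.1.1 else 0) = 0
    by_cases hr : r.1.1.length + 2 ≤ m
    · rw [if_pos hr]
      exact h _ hr _ _
    · rw [if_neg hr]

/-- MIN -/
theorem t : S_MIN := by
  intro ι _ _ m K0 hK0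
  classical
  have := fin_VV ι m
  have := fin_words ι m
  have : Fintype {w : List ι // w.length ≤ m} := Fintype.ofFinite _
  obtain ⟨P, hP0, hP⟩ := generic (MM m) (pp m) (fun K v r => eval_pp m K v r)
    (fun q => K0 q.1 q.2.1 q.2.2)
  refine ⟨P, hP0, fun K hK => ?_⟩
  have hle : Ker m K ≤ VV ι m := fun v hv => ⟨hv.1, hv.2.1⟩
  have hfd : FiniteDimensional ℝ (Ker m K) := Submodule.finiteDimensional_of_le hle
  refine ⟨hfd, ?_⟩
  have h1 := hP (fun q => K q.1 q.2.1 q.2.2) hK
  -- the space of solutions is the kernel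
  have h2 : Module.finrank ℝ (Ker m K) ≤
      Module.finrank ℝ (LinearMap.ker (MM m fun q => K q.1 q.2.1 q.2.2)) := by
    let T : Ker m K →ₗ[ℝ] LinearMap.ker (MM m fun q => K q.1 q.2.1 q.2.2) :=
      { toFun := fun v => ⟨⟨v.1, hle v.2⟩, (rows_iff m (fun q => K q.1 q.2.1 q.2.2) _).2 v.2.2.2⟩
        map_add' := fun v v' => rfl
        map_smul' := fun c v => rfl }
    refine LinearMap.finrank_le_finrank_of_injective (f := T) ?_
    intro v v' h
    exact Subtype.ext (congrArg (fun z : LinearMap.ker (MM m fun q => K q.1 q.2.1 q.2.2) =>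
      (z.1 : Jet ι ℝ)) h)
  -- the kernel at `K0` has dimension at most `n`
  have h3 : Module.finrank ℝ (LinearMap.ker (MM m fun q => K0 q.1 q.2.1 q.2.2)) ≤
      Fintype.card ι := by
    let T : LinearMap.ker (MM m fun q => K0 q.1 q.2.1 q.2.2) →ₗ[ℝ] (ι → ℝ) :=
      { toFun := fun v i => (v.1 : Jet ι ℝ) (List.replicate m i)
        map_add' := fun v v' => rfl
        map_smul' := fun c v => rfl }
    have hT : Function.Injective T := by
      intro v1 v2 h12
      apply sub_eq_zero.1
      obtain ⟨v, hvd⟩ : ∃ v, v = v1 - v2 := ⟨_, rfl⟩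
      rw [← hvd]
      have hv : ∀ i, (v.1 : Jet ι ℝ) (List.replicate m i) = 0 := fun i => by
        rw [hvd]
        exact sub_eq_zero.2 (congrFun h12 i)
      have hmem : (v.1 : Jet ι ℝ) ∈ Ker m K0 :=
        ⟨v.1.2.1, v.1.2.2, (rows_iff m (fun q => K0 q.1 q.2.1 q.2.2) _).1 v.2⟩
      apply Subtype.ext
      apply Subtype.ext
      funext w
      change (v.1 : Jet ι ℝ) w = 0
      by_contra hne
      obtain ⟨hl, hall⟩ := hK0 _ hmem w hne
      have h5 := (v.1.2.2 w hne).1
      obtain ⟨i, w', rfl⟩ : ∃ i w', w = i :: w' := by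
        cases w with
        | nil => simp at h5
        | cons i w' => exact ⟨i, w', rfl⟩
      have h6 : i :: w' = List.replicate m i := by
        rw [List.eq_replicate_iff]
        exact ⟨hl, fun b hb => hall b hb i (List.mem_cons_self)⟩
      apply hne
      rw [h6]
      exact hv i
    have := LinearMap.finrank_le_finrank_of_injective hT
    rwa [Module.finrank_fintype_fun_eq_card] at this
  exact h2.trans (h1.trans h3)

end Pool.Agent.N823.KT
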